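import Pool.Agent.helper88.RQ2.Spec

/-!
# Row rq:C6
-/

set_option autoImplicit false

open Set Matroid RadonMin

namespace RadonQ2

/-- four different triples in a set of six points, two of them share at most one point -/
lemma C6_comb {V : Type} [DecidableEq V] (X : Finset V) (hX : X.card = 6) (T : Finset (Finset V))
    (hT : ∀ C ∈ T, C ⊆ X ∧ C.card = 3)
    (hu : ∀ C ∈ T, ∀ C' ∈ T, C ≠ C' → (C ∩ C').card ≤ 1) (h4 : 4 ≤ T.card) :
    ∃ a b c d e f : V, X = {a, b, c, d, e, f} ∧ ({a, b, c} : Finset V) ∈ T ∧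
      ({a, e, f} : Finset V) ∈ T ∧ ({b, d, f} : Finset V) ∈ T ∧ ({c, d, e} : Finset V) ∈ T := by
  obtain ⟨T', hT'T, hT'⟩ := Finset.exists_subset_card_eq h4
  obtain ⟨C1, C2, C3, C4, h12, h13, h14, h23, h24, h34, hTe⟩ := Finset.card_eq_four.mp hT'
  have m1 : C1 ∈ T := hT'T (by rw [hTe]; simp)
  have m2 : C2 ∈ T := hT'T (by rw [hTe]; simp)
  have m3 : C3 ∈ T := hT'T (by rw [hTe]; simp)
  have m4 : C4 ∈ T := hT'T (by rw [hTe]; simp)
  -- two triples meet if there is a third one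
  have meet : ∀ C ∈ T, ∀ C' ∈ T, ∀ C'' ∈ T, C ≠ C' → C ≠ C'' → C' ≠ C'' → ∃ p, C ∩ C' = {p} := by
    intro C hC C' hC' C'' hC'' h1 h2 h3
    rw [← Finset.card_eq_one]
    have g1 := hu C hC C' hC' h1
    have g2 := hu C hC C'' hC'' h2
    have g3 := hu C' hC' C'' hC'' h3
    by_contra hne
    have g0 : (C ∩ C').card = 0 := by omega
    have g4 := Finset.card_union_add_card_inter C C'
    rw [g0, (hT C hC).2, (hT C' hC').2] at g4
    have g5 : C ∪ C' = X := Finset.eq_of_subset_of_card_le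
      (Finset.union_subset (hT C hC).1 (hT C' hC').1) (by omega)
    have g6 : C'' = (C ∩ C'') ∪ (C' ∩ C'') := by
      rw [← Finset.union_inter_distrib_right, g5, Finset.inter_eq_right.mpr (hT C'' hC'').1]
    have g7 := Finset.card_union_le (C ∩ C'') (C' ∩ C'')
    rw [← g6, (hT C'' hC'').2] at g7
    omega
  -- no point is on three triples
  have no3 : ∀ C ∈ T, ∀ C' ∈ T, ∀ C'' ∈ T, C ≠ C' → C ≠ C'' → C' ≠ C'' → ∀ x, x ∈ C → x ∈ C' →
      x ∈ C'' → False := by
    intro C hC C' hC' C'' hC'' h1 h2 h3 x x1 x2 x3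
    have e1 : C ∩ C' = {x} := by
      symm
      apply Finset.eq_of_subset_of_card_le
      · simp [x1, x2]
      · rw [Finset.card_singleton]; exact hu C hC C' hC' h1
    have e2 : C ∩ C'' = {x} := by
      symm
      apply Finset.eq_of_subset_of_card_le
      · simp [x1, x3]
      · rw [Finset.card_singleton]; exact hu C hC C'' hC'' h2
    have e3 : C' ∩ C'' = {x} := by
      symm
      apply Finset.eq_of_subset_of_card_le
      · simp [x2, x3]
      · rw [Finset.card_singleton]; exact hu C' hC' C'' hC'' h3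
    have g4 := Finset.card_union_add_card_inter C C'
    rw [e1, (hT C hC).2, (hT C' hC').2, Finset.card_singleton] at g4
    have g5 := Finset.card_union_add_card_inter (C ∪ C') C''
    rw [Finset.union_inter_distrib_right, e2, e3, Finset.union_self, (hT C'' hC'').2,
      Finset.card_singleton] at g5
    have g6 := Finset.card_le_card (Finset.union_subset
      (Finset.union_subset (hT C hC).1 (hT C' hC').1) (hT C'' hC'').1)
    omega
  obtain ⟨a, ha⟩ := meet C1 m1 C2 m2 C3 m3 h12 h13 h23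
  obtain ⟨b, hb⟩ := meet C1 m1 C3 m3 C2 m2 h13 h12 h23.symm
  obtain ⟨c, hc⟩ := meet C1 m1 C4 m4 C2 m2 h14 h12 h24.symm
  obtain ⟨f, hf⟩ := meet C2 m2 C3 m3 C1 m1 h23 h12.symm h13.symm
  obtain ⟨e, he⟩ := meet C2 m2 C4 m4 C1 m1 h24 h12.symm h14.symm
  obtain ⟨d, hd⟩ := meet C3 m3 C4 m4 C1 m1 h34 h13.symm h14.symm
  have get : ∀ {C C' : Finset V} {p : V}, C ∩ C' = {p} → p ∈ C ∧ p ∈ C' := by
    intro C C' p h
    have : p ∈ C ∩ C' := by rw [h]; simp
    exact Finset.mem_inter.mp this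
  obtain ⟨a1, a2⟩ := get ha
  obtain ⟨b1, b3⟩ := get hb
  obtain ⟨c1, c4⟩ := get hc
  obtain ⟨f2, f3⟩ := get hf
  obtain ⟨e2, e4⟩ := get he
  obtain ⟨d3, d4⟩ := get hd
  have nab : a ≠ b := fun h => no3 C1 m1 C2 m2 C3 m3 h12 h13 h23 a a1 a2 (h ▸ b3)
  have nac : a ≠ c := fun h => no3 C1 m1 C2 m2 C4 m4 h12 h14 h24 a a1 a2 (h ▸ c4)
  have nbc : b ≠ c := fun h => no3 C1 m1 C3 m3 C4 m4 h13 h14 h34 b b1 b3 (h ▸ c4)
  have naf : a ≠ f := fun h => no3 C1 m1 C2 m2 C3 m3 h12 h13 h23 a a1 a2 (h ▸ f3)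
  have nae : a ≠ e := fun h => no3 C1 m1 C2 m2 C4 m4 h12 h14 h24 a a1 a2 (h ▸ e4)
  have nad : a ≠ d := fun h => no3 C1 m1 C2 m2 C3 m3 h12 h13 h23 a a1 a2 (h ▸ d3)
  have nbf : b ≠ f := fun h => no3 C1 m1 C2 m2 C3 m3 h12 h13 h23 b b1 (h ▸ f2) b3
  have nbe : b ≠ e := fun h => no3 C1 m1 C2 m2 C3 m3 h12 h13 h23 b b1 (h ▸ e2) b3
  have nbd : b ≠ d := fun h => no3 C1 m1 C3 m3 C4 m4 h13 h14 h34 b b1 b3 (h ▸ d4)
  have ncf : c ≠ f := fun h => no3 C1 m1 C2 m2 C4 m4 h12 h14 h24 c c1 (h ▸ f2) c4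
  have nce : c ≠ e := fun h => no3 C1 m1 C2 m2 C4 m4 h12 h14 h24 c c1 (h ▸ e2) c4
  have ncd : c ≠ d := fun h => no3 C1 m1 C3 m3 C4 m4 h13 h14 h34 c c1 (h ▸ d3) c4
  have nef : e ≠ f := fun h => no3 C2 m2 C3 m3 C4 m4 h23 h24 h34 e e2 (h ▸ f3) e4
  have nde : d ≠ e := fun h => no3 C2 m2 C3 m3 C4 m4 h23 h24 h34 d (h ▸ e2) d3 d4
  have ndf : d ≠ f := fun h => no3 C2 m2 C3 m3 C4 m4 h23 h24 h34 d (h ▸ f2) d3 d4
  have three : ∀ (C : Finset V) (x y z : V), C.card = 3 → x ∈ C → y ∈ C → z ∈ C → x ≠ y → x ≠ z →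
      y ≠ z → ({x, y, z} : Finset V) = C := by
    intro C x y z hC hx hy hz hxy hxz hyz
    apply Finset.eq_of_subset_of_card_le
    · intro w hw
      simp only [Finset.mem_insert, Finset.mem_singleton] at hw
      rcases hw with rfl | rfl | rfl
      · exact hx
      · exact hy
      · exact hz
    · rw [hC, Finset.card_eq_three.mpr ⟨x, y, z, hxy, hxz, hyz, rfl⟩]
  have k1 : ({a, b, c} : Finset V) = C1 := three C1 a b c (hT C1 m1).2 a1 b1 c1 nab nac nbc
  have k2 : ({a, e, f} : Finset V) = C2 := three C2 a e f (hT C2 m2).2 a2 e2 f2 nae naf nef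
  have k3 : ({b, d, f} : Finset V) = C3 := three C3 b d f (hT C3 m3).2 b3 d3 f3 nbd nbf ndf
  have k4 : ({c, d, e} : Finset V) = C4 := three C4 c d e (hT C4 m4).2 c4 d4 e4 ncd nce nde
  refine ⟨a, b, c, d, e, f, ?_, k1 ▸ m1, k2 ▸ m2, k3 ▸ m3, k4 ▸ m4⟩
  symm
  apply Finset.eq_of_subset_of_card_le
  · intro w hw
    simp only [Finset.mem_insert, Finset.mem_singleton] at hw
    rcases hw with rfl | rfl | rfl | rfl | rfl | rfl
    · exact (hT C1 m1).1 a1
    · exact (hT C1 m1).1 b1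
    · exact (hT C1 m1).1 c1
    · exact (hT C3 m3).1 d3
    · exact (hT C2 m2).1 e2
    · exact (hT C2 m2).1 f2
  · rw [hX]
    rw [Finset.card_insert_of_notMem, Finset.card_insert_of_notMem, Finset.card_insert_of_notMem,
      Finset.card_insert_of_notMem, Finset.card_insert_of_notMem, Finset.card_singleton]
    · simpa using nef
    · simpa using ⟨nde, ndf⟩
    · simpa using ⟨ncd, nce, ncf⟩
    · simpa using ⟨nbc, nbd, nbe, nbf⟩
    · simpa using ⟨nab, nac, nad, nae, naf⟩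

theorem C6_proof (hGTR : GTR_stmt) (hGCO : GCO_stmt) : C6_stmt := by
  classical
  intro V _ _ _ X hra hcard hci
  have hfin : (affMat X).Finite := ⟨by rw [affMat_E]; exact X.finite_toSet⟩
  have hs := affMat_simp X
  have hr3 : rk (affMat X) (affMat X).E = 3 := hra
  obtain ⟨E', L, D⟩ := exists_lineData (affMat X) hs hr3
  have hE' : E' = X := by
    have := D.coe_E
    rw [affMat_E] at this
    exact Finset.coe_injective this
  subst hE'
  have hcc : cc (affMat E') ≤ 7 := hci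
  have hLE := Finset.card_le_card D.sub
  have hsd : (E' \ L).card = 6 - L.card := by
    rw [Finset.card_sdiff_of_subset D.sub, hcard]
  have hL6 : L.card ≠ 6 := by
    intro h
    have h1 : L = E' := Finset.eq_of_subset_of_card_le D.sub (by omega)
    have h2 := D.rk_L
    rw [h1, D.coe_E, hr3] at h2
    omega
  rcases Nat.lt_or_ge L.card 4 with hL | hL
  · have h1 := D.cc_ge_short
    rw [hcard] at h1
    have c1 : Nat.choose 6 4 = 15 := by decide
    rw [c1] at h1
    set T := (E'.powersetCard 3).filter (fun C : Finset V => (affMat E').IsCircuit (C : Set V)) with hTdef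
    have ht : 4 ≤ T.card := by omega
    obtain ⟨a, b, c, d, e, f, hX, t1, t2, t3, t4⟩ := C6_comb E' hcard T
      (by
        intro C hC
        rw [hTdef, Finset.mem_filter, Finset.mem_powersetCard] at hC
        exact hC.1)
      (by
        intro C hC C' hC' hne
        rw [hTdef, Finset.mem_filter, Finset.mem_powersetCard] at hC hC'
        by_contra hcon
        push Not at hcon
        obtain ⟨P, hP, hP2⟩ := Finset.exists_subset_card_eq (s := C ∩ C') (n := 2) hcon
        exact hne (D.triangles_unique (by omega) hC.1.1 hC'.1.1 hC.1.2 hC'.1.2 hC.2 hC'.2 hP2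
          (hP.trans Finset.inter_subset_left) (hP.trans Finset.inter_subset_right)))
      ht
    have hcol : ∀ x y z : V, ({x, y, z} : Finset V) ∈ T → Col x y z := by
      intro x y z h
      rw [hTdef, Finset.mem_filter, Finset.mem_powersetCard] at h
      have htri : Tri (affMat E') x y z := by
        unfold Tri
        have h2 := h.2
        simpa using h2
      obtain ⟨n1, n2, n3⟩ := htri.ne hs
      exact (hGTR V E' x y z (h.1.1 (by simp)) (h.1.1 (by simp)) (h.1.1 (by simp)) n1 n2 n3).1 htri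
    refine ⟨a, b, c, d, e, f, hcard, ?_, hcol _ _ _ t1, hcol _ _ _ t2, hcol _ _ _ t3, hcol _ _ _ t4, ?_⟩
    · conv_lhs => rw [hX]
      simp
    · rw [← hGCO V E', hra]
      omega
  · exfalso
    have h1 := D.cc_ge_trace hL
    rw [hsd] at h1
    have : L.card = 4 ∨ L.card = 5 := by omega
    rcases this with h | h
    · rw [h] at h1
      have : Nat.choose 4 3 + Nat.choose (6 - 4) 2 * (1 + Nat.choose (4 - 1) 2) +
        Nat.choose (6 - 4) 3 = 8 := by decide
      omega
    · rw [h] at h1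
      have : Nat.choose 5 3 + Nat.choose (6 - 5) 2 * (1 + Nat.choose (5 - 1) 2) +
        Nat.choose (6 - 5) 3 = 10 := by decide
      omega

end RadonQ2
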